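import Pool.Agent.Q5.SG.Stm2
import Pool.Agent.Q257.AR.Cyc
import Pool.Agent.Q125.AR.Base

/-! Project SG (helper5), job CC: the Artin character of a character which is trivial on the
automorphisms fixing a root of unity, on conjugate divisors. -/

set_option autoImplicit false
set_option linter.unusedSectionVars false

namespace Pool.Agent.Q56.SG

open NumberField IsDedekindDomain Pool.Agent.Q92.AR Pool.Agent.Q5.SG Pool.Agent.TeamU

section
variable {K : Type} [Field K] [NumberField K]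

theorem actE_symm (c : K ≃+* K) (v : HeightOneSpectrum (𝓞 K)) : actE c (actE c.symm v) = v := by
  ext x
  rw [mem_actE, mem_actE]
  have h : (RingOfIntegers.mapRingEquiv c.symm).symm ((RingOfIntegers.mapRingEquiv c).symm x) = x := by
    apply RingOfIntegers.ext
    exact c.apply_symm_apply (x : K)
  rw [h]

theorem symm_actE (c : K ≃+* K) (v : HeightOneSpectrum (𝓞 K)) : actE c.symm (actE c v) = v := by
  ext x
  rw [mem_actE, mem_actE]
  have h : (RingOfIntegers.mapRingEquiv c).symm ((RingOfIntegers.mapRingEquiv c.symm).symm x) = x := by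
    apply RingOfIntegers.ext
    exact c.symm_apply_apply (x : K)
  rw [h]

/-- the automorphism `c` on the primes -/
noncomputable def cE (c : K ≃+* K) : HeightOneSpectrum (𝓞 K) ≃ HeightOneSpectrum (𝓞 K) where
  toFun := actE c
  invFun := actE c.symm
  left_inv := symm_actE c
  right_inv := actE_symm c

theorem absNorm_actE (c : K ≃+* K) (v : HeightOneSpectrum (𝓞 K)) :
    Ideal.absNorm (actE c v).asIdeal = Ideal.absNorm v.asIdeal := by
  rw [Ideal.absNorm_apply, Ideal.absNorm_apply, Submodule.cardQuot_apply, Submodule.cardQuot_apply]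
  exact (Nat.card_congr (Ideal.quotientEquiv v.asIdeal (actE c v).asIdeal
    (RingOfIntegers.mapRingEquiv c) (actE_asIdeal c v)).toEquiv).symm

theorem natCast_mem_actE (c : K ≃+* K) (v : HeightOneSpectrum (𝓞 K)) (n : ℕ) :
    (n : 𝓞 K) ∈ (actE c v).asIdeal ↔ (n : 𝓞 K) ∈ v.asIdeal := by
  rw [mem_actE, map_natCast]

theorem prin_actE (c : K ≃+* K) (γ : Kˣ) (v : HeightOneSpectrum (𝓞 K)) :
    prin (Units.map (c : K →* K) γ) (actE c v) = prin γ v := by
  have h := valuation_actE c v (γ : K)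
  have h1 := Pool.Agent.Q125.AR.valuation_eq_exp (Units.map (c : K →* K) γ) (actE c v)
  have h2 := Pool.Agent.Q125.AR.valuation_eq_exp γ v
  have h3 : ((Units.map (c : K →* K) γ : Kˣ) : K) = c (γ : K) := rfl
  rw [h3, h, h2] at h1
  have h4 := WithZero.exp_injective h1
  omega

theorem prin_map (c : K ≃+* K) (γ : Kˣ) :
    prin (Units.map (c : K →* K) γ) = Finsupp.equivMapDomain (cE c) (prin γ) := by
  ext v
  rw [Finsupp.equivMapDomain_apply]
  conv_lhs => rw [← actE_symm c v]
  exact prin_actE c γ _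

variable {M : Type} [Field M] [NumberField M] [Algebra K M] [IsGalois K M]

theorem psi_eq (ψ : (M ≃ₐ[K] M) →* ℂˣ) (ζ : M) (hψ : ∀ g : M ≃ₐ[K] M, g ζ = ζ → ψ g = 1)
    {g h : M ≃ₐ[K] M} (hgh : g ζ = h ζ) : ψ g = ψ h := by
  have h1 : (h⁻¹ * g) ζ = ζ := by
    rw [AlgEquiv.mul_apply, hgh, ← AlgEquiv.mul_apply, inv_mul_cancel, AlgEquiv.one_apply]
  have h2 := hψ _ h1
  rw [map_mul, map_inv, inv_mul_eq_one] at h2
  exact h2.symm

end

/-- **JOB SG-CC** -/
theorem cc : S_CC := by
  intro p hp K M _ _ _ _ _ _ m ζ hζ ψ hψ N' hN' hpN _ c γ hγ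
  have hpm : p ^ m ≠ 0 := pow_ne_zero _ hp.out.ne_zero
  have _ : NeZero (p ^ m) := ⟨hpm⟩
  rw [prin_map, Finsupp.equivMapDomain_eq_mapDomain]
  unfold art
  rw [Finsupp.liftAddHom_apply, Finsupp.liftAddHom_apply,
    Finsupp.sum_mapDomain_index_addMonoidHom]
  refine Finsupp.sum_congr fun v hv => ?_
  have h1 : ((p ^ m : ℕ) : 𝓞 K) ∉ v.asIdeal := by
    intro h
    rw [Finsupp.mem_support_iff] at hv
    apply hv
    apply hγ v
    rw [Nat.cast_pow] at h
    have h2 := v.isPrime.mem_of_pow_mem _ h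
    obtain ⟨k, rfl⟩ := hpN
    rw [Nat.cast_mul]
    exact Ideal.mul_mem_right _ _ h2
  have h2 : ((p ^ m : ℕ) : 𝓞 K) ∉ (actE c v).asIdeal := by
    rw [natCast_mem_actE]
    exact h1
  have h3 := Pool.Agent.Q257.AR.frob_zeta hζ h1 (frob_spec (M := M) v)
  have h4 := Pool.Agent.Q257.AR.frob_zeta hζ h2 (frob_spec (M := M) (actE c v))
  rw [absNorm_actE, ← h3] at h4
  have h5 := psi_eq ψ ζ hψ h4
  change (prin γ v) • Additive.ofMul (ψ (frob M (actE c v))) =
    (prin γ v) • Additive.ofMul (ψ (frob M v))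
  rw [h5]

end Pool.Agent.Q56.SG
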